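import Pool.Agent.H33.AF.Net

/-!
helper33 (project MP_28250c_AF): second moments of the form of a layer and of the comparison process.
-/

set_option autoImplicit false
set_option linter.unusedSectionVars false
set_option linter.unusedVariables false

namespace ACpFrege

open Finset

variable {M q : ℕ} [NeZero q]

/-- The second moment of a linear form in the entries of a layer. -/
theorem av_form_sq (hq : 2 ≤ q) (c : Fin M × Fin M → ℂ) :
    av (fun ζ : Fin M → Fin M → ZMod (2 * q) => ‖∑ p, c p * lay ζ p.1 p.2‖ ^ 2) = ∑ p, ‖c p‖ ^ 2 := by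
  have h1 : ((av (fun ζ : Fin M → Fin M → ZMod (2 * q) => ‖∑ p, c p * lay ζ p.1 p.2‖ ^ 2) : ℝ) : ℂ) =
      ((∑ p, ‖c p‖ ^ 2 : ℝ) : ℂ) := by
    rw [← avc_ofReal]
    rw [avc_congr fun ζ => sq_expand c (fun p => lay ζ p.1 p.2), avc_sum]
    have h2 : ∀ p : Fin M × Fin M, avc (fun ζ : Fin M → Fin M → ZMod (2 * q) => ∑ p' : Fin M × Fin M,
        ((starRingEnd ℂ) (c p) * c p') * ((starRingEnd ℂ) (lay ζ p.1 p.2) * lay ζ p'.1 p'.2)) =
          ((‖c p‖ ^ 2 : ℝ) : ℂ) := by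
      intro p
      rw [avc_sum, Finset.sum_eq_single p]
      · rw [avc_mul, lay_cov hq, if_pos ⟨rfl, rfl⟩, mul_one, Complex.conj_mul', Complex.ofReal_pow]
      · intro p' _ hne
        rw [avc_mul, lay_cov hq, if_neg, mul_zero]
        rintro ⟨h3, h4⟩
        exact hne (Prod.ext h3 h4)
      · intro h
        exact absurd (Finset.mem_univ p) h
    rw [Finset.sum_congr rfl fun p _ => h2 p, ← Complex.ofReal_sum]
  exact_mod_cast h1

theorem sum_form_sub (x y : Fin M → ℂ) :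
    ∑ p : Fin M × Fin M, ‖(starRingEnd ℂ) (x p.1) * x p.2 - (starRingEnd ℂ) (y p.1) * y p.2‖ ^ 2 =
      nsq x * nsq x + nsq y * nsq y - 2 * ‖ip x y‖ ^ 2 := by
  have h1 : ∀ p : Fin M × Fin M, ‖(starRingEnd ℂ) (x p.1) * x p.2 - (starRingEnd ℂ) (y p.1) * y p.2‖ ^ 2 =
      ‖(starRingEnd ℂ) (x p.1) * x p.2‖ ^ 2 + ‖(starRingEnd ℂ) (y p.1) * y p.2‖ ^ 2 -
        2 * (((starRingEnd ℂ) (x p.1) * y p.1) * ((starRingEnd ℂ) (y p.2) * x p.2)).re := by
    intro p
    rw [← Complex.normSq_eq_norm_sq, Complex.normSq_sub, Complex.normSq_eq_norm_sq, Complex.normSq_eq_norm_sq]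
    congr 3
    rw [map_mul, Complex.conj_conj]
    ring
  rw [sum_congr rfl fun p _ => h1 p, sum_sub_distrib, sum_add_distrib, prod_nsq, prod_nsq, ← mul_sum, ← Complex.re_sum,
    Fintype.sum_prod_type]
  have h2 : ∑ u : Fin M, ∑ v : Fin M, ((starRingEnd ℂ) (x u) * y u) * ((starRingEnd ℂ) (y v) * x v) =
      ((‖ip x y‖ ^ 2 : ℝ) : ℂ) := by
    rw [← sum_mul_sum]
    change ip x y * ip y x = _
    rw [← ip_conj x y, Complex.mul_conj', Complex.ofReal_pow]
  simp only [h2, Complex.ofReal_re]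

/-- The form of a layer has mean zero. -/
theorem av_lay_form (x : Fin M → ℂ) :
    av (fun ζ : Fin M → Fin M → ZMod (2 * q) => (ip x ((lay ζ).mulVec x)).re) = 0 := by
  rw [← avc_re, avc_ip_lay, Complex.zero_re]

/-- The increments of the form of a layer. -/
theorem av_lay_sub_sq (hq : 2 ≤ q) (x y : Fin M → ℂ) (hx : nsq x = 1) (hy : nsq y = 1) :
    av (fun ζ : Fin M → Fin M → ZMod (2 * q) => ((ip x ((lay ζ).mulVec x)).re - (ip y ((lay ζ).mulVec y)).re) ^ 2) =
      2 - 2 * ‖ip x y‖ ^ 2 := by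
  have h1 : ∀ ζ : Fin M → Fin M → ZMod (2 * q), ((ip x ((lay ζ).mulVec x)).re - (ip y ((lay ζ).mulVec y)).re) ^ 2 =
      ‖∑ p : Fin M × Fin M, ((starRingEnd ℂ) (x p.1) * x p.2 - (starRingEnd ℂ) (y p.1) * y p.2) * lay ζ p.1 p.2‖ ^ 2 := by
    intro ζ
    have h2 : ∑ p : Fin M × Fin M, ((starRingEnd ℂ) (x p.1) * x p.2 - (starRingEnd ℂ) (y p.1) * y p.2) * lay ζ p.1 p.2 =
        (((ip x ((lay ζ).mulVec x)).re - (ip y ((lay ζ).mulVec y)).re : ℝ) : ℂ) := by
      rw [Complex.ofReal_sub, ← ip_herm_re (lay_herm ζ), ← ip_herm_re (lay_herm ζ), ip_mulVec_eq, ip_mulVec_eq,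
        ← sum_sub_distrib]
      refine sum_congr rfl fun p _ => ?_
      ring
    rw [h2, Complex.norm_real, Real.norm_eq_abs, sq_abs]
  rw [av_congr h1, av_form_sq hq, sum_form_sub, hx, hy]
  ring

/-- The vector of roots of unity. -/
noncomputable def rou (g : Fin M → ZMod (2 * q)) : Fin M → ℂ := fun u => om (2 * q) (g u)

theorem nsq_rou (g : Fin M → ZMod (2 * q)) : nsq (rou g) = M := by
  unfold nsq rou
  simp [om_norm]

/-- The shift by one in the coordinate `u`. -/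
def shG (u : Fin M) : (Fin M → ZMod (2 * q)) ≃ (Fin M → ZMod (2 * q)) :=
  Equiv.addRight (Pi.single u 1)

theorem rou_shG (u : Fin M) (g : Fin M → ZMod (2 * q)) : rou (shG u g) u = om (2 * q) 1 * rou g u := by
  change om (2 * q) (g u + (Pi.single u 1 : Fin M → ZMod (2 * q)) u) = om (2 * q) 1 * om (2 * q) (g u)
  rw [Pi.single_eq_same, om_add, mul_comm]

theorem rou_shG_ne {u v : Fin M} (h : v ≠ u) (g : Fin M → ZMod (2 * q)) : rou (shG u g) v = rou g v := by
  change om (2 * q) (g v + (Pi.single u 1 : Fin M → ZMod (2 * q)) v) = om (2 * q) (g v)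
  rw [Pi.single_eq_of_ne h, add_zero]

theorem om_one_ne (hq : 2 ≤ q) : om (2 * q) 1 ≠ 1 := by
  have h := om_one_pow_ne (n := 2 * q) (k := 1) one_pos (by omega)
  rwa [pow_one] at h

theorem om_one_sq_ne (hq : 2 ≤ q) : om (2 * q) 1 ^ 2 ≠ 1 := om_one_pow_ne (n := 2 * q) (k := 2) two_pos (by omega)

theorem rou_mean (hq : 2 ≤ q) (u : Fin M) : avc (fun g : Fin M → ZMod (2 * q) => rou g u) = 0 :=
  avc_zero_of (shG u) _ (om (2 * q) 1) (om_one_ne hq) fun g => rou_shG u g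

theorem rou_cov (hq : 2 ≤ q) (u v : Fin M) :
    avc (fun g : Fin M → ZMod (2 * q) => (starRingEnd ℂ) (rou g u) * rou g v) = if v = u then 1 else 0 := by
  by_cases h : v = u
  · subst h
    rw [if_pos rfl]
    have h1 : ∀ g : Fin M → ZMod (2 * q), (starRingEnd ℂ) (rou g v) * rou g v = 1 := fun g => om_conj_mul _
    rw [avc_congr h1, avc_const]
  · rw [if_neg h]
    refine avc_zero_of (shG u) _ ((starRingEnd ℂ) (om (2 * q) 1)) ?_ ?_
    · intro h1
      apply om_one_ne hq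
      have := congrArg (starRingEnd ℂ) h1
      rwa [Complex.conj_conj, map_one] at this
    · intro g
      rw [rou_shG, rou_shG_ne h, map_mul]
      ring

theorem rou_prod (hq : 2 ≤ q) (u v : Fin M) : avc (fun g : Fin M → ZMod (2 * q) => rou g u * rou g v) = 0 := by
  by_cases h : v = u
  · subst h
    refine avc_zero_of (shG v) _ (om (2 * q) 1 ^ 2) (om_one_sq_ne hq) fun g => ?_
    rw [rou_shG]
    ring
  · refine avc_zero_of (shG u) _ (om (2 * q) 1) (om_one_ne hq) fun g => ?_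
    rw [rou_shG, rou_shG_ne h]
    ring

theorem av_rou_sq (hq : 2 ≤ q) (z : Fin M → ℂ) :
    av (fun g : Fin M → ZMod (2 * q) => ‖ip z (rou g)‖ ^ 2) = nsq z := by
  have h1 : ((av (fun g : Fin M → ZMod (2 * q) => ‖ip z (rou g)‖ ^ 2) : ℝ) : ℂ) = ((nsq z : ℝ) : ℂ) := by
    rw [← avc_ofReal]
    unfold ip
    rw [avc_congr fun g => sq_expand (fun u => (starRingEnd ℂ) (z u)) (fun u => rou g u), avc_sum]
    have h2 : ∀ u : Fin M, avc (fun g : Fin M → ZMod (2 * q) => ∑ v : Fin M,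
        ((starRingEnd ℂ) ((starRingEnd ℂ) (z u)) * (starRingEnd ℂ) (z v)) * ((starRingEnd ℂ) (rou g u) * rou g v)) =
          ((‖z u‖ ^ 2 : ℝ) : ℂ) := by
      intro u
      rw [avc_sum, Finset.sum_eq_single u]
      · rw [avc_mul, rou_cov hq, if_pos rfl, mul_one, Complex.conj_conj, Complex.mul_conj', Complex.ofReal_pow]
      · intro v _ hne
        rw [avc_mul, rou_cov hq, if_neg hne, mul_zero]
      · intro h
        exact absurd (Finset.mem_univ u) h
    rw [Finset.sum_congr rfl fun u _ => h2 u, ← Complex.ofReal_sum]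
    rfl
  exact_mod_cast h1

theorem avc_rou_sq (hq : 2 ≤ q) (z : Fin M → ℂ) :
    avc (fun g : Fin M → ZMod (2 * q) => ip z (rou g) ^ 2) = 0 := by
  have h1 : ∀ g : Fin M → ZMod (2 * q), ip z (rou g) ^ 2 =
      ∑ u, ∑ v, ((starRingEnd ℂ) (z u) * (starRingEnd ℂ) (z v)) * (rou g u * rou g v) := by
    intro g
    unfold ip
    rw [sq, sum_mul_sum]
    refine sum_congr rfl fun u _ => sum_congr rfl fun v _ => ?_
    ring
  rw [avc_congr h1, avc_sum]
  refine sum_eq_zero fun u _ => ?_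
  rw [avc_sum]
  refine sum_eq_zero fun v _ => ?_
  rw [avc_mul, rou_prod hq, mul_zero]

theorem av_rou_mean (hq : 2 ≤ q) (z : Fin M → ℂ) :
    av (fun g : Fin M → ZMod (2 * q) => (ip z (rou g)).re) = 0 := by
  rw [← avc_re]
  unfold ip
  rw [avc_sum, sum_eq_zero, Complex.zero_re]
  intro u _
  rw [avc_mul, rou_mean hq, mul_zero]

theorem av_rou_re_sq (hq : 2 ≤ q) (z : Fin M → ℂ) :
    av (fun g : Fin M → ZMod (2 * q) => (ip z (rou g)).re ^ 2) = nsq z / 2 := by
  have h1 : ∀ w : ℂ, w.re ^ 2 = (1 / 2) * (‖w‖ ^ 2 + (w ^ 2).re) := by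
    intro w
    rw [← Complex.normSq_eq_norm_sq, Complex.normSq_apply, sq w, Complex.mul_re]
    ring
  rw [av_congr fun g => h1 (ip z (rou g)), av_mul, av_add, av_rou_sq hq, ← avc_re, avc_rou_sq hq]
  simp
  ring

/-- The increments of the form are at most those of the comparison process. -/
theorem incr_le (hq : 2 ≤ q) (c : ℝ) (x y : Fin M → ℂ) (hx : nsq x = 1) (hy : nsq y = 1) :
    av (fun ζ : Fin M → Fin M → ZMod (2 * q) => (c * (ip x ((lay ζ).mulVec x)).re - c * (ip y ((lay ζ).mulVec y)).re) ^ 2) ≤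
      av (fun g : Fin M → ZMod (2 * q) => (c * (2 * (ip x (rou g)).re) - c * (2 * (ip y (rou g)).re)) ^ 2) := by
  have h1 : ∀ ζ : Fin M → Fin M → ZMod (2 * q),
      (c * (ip x ((lay ζ).mulVec x)).re - c * (ip y ((lay ζ).mulVec y)).re) ^ 2 =
        c ^ 2 * ((ip x ((lay ζ).mulVec x)).re - (ip y ((lay ζ).mulVec y)).re) ^ 2 := fun ζ => by ring
  have h2 : ∀ g : Fin M → ZMod (2 * q), (c * (2 * (ip x (rou g)).re) - c * (2 * (ip y (rou g)).re)) ^ 2 =
      c ^ 2 * (4 * (ip (x - y) (rou g)).re ^ 2) := by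
    intro g
    rw [ip_sub_left, Complex.sub_re]
    ring
  rw [av_congr h1, av_congr h2, av_mul, av_mul, av_mul, av_lay_sub_sq hq x y hx hy, av_rou_re_sq hq, nsq_sub, hx, hy]
  refine mul_le_mul_of_nonneg_left ?_ (sq_nonneg c)
  have h3 : (ip x y).re ^ 2 ≤ ‖ip x y‖ ^ 2 := by
    rw [← sq_abs]
    exact pow_le_pow_left₀ (abs_nonneg _) (Complex.abs_re_le_norm _) 2
  nlinarith [sq_nonneg (1 - (ip x y).re)]

end ACpFrege
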