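import Pool.Agent.H33.AF.SF
import Pool.Agent.H33.AF.Mom

/-!
helper33 (project MP_28250c_AF): the mean of the largest eigenvalue is at most `2 √M + η` (output C1).
-/

set_option autoImplicit false
set_option linter.unusedSectionVars false
set_option linter.unusedVariables false

namespace ACpFrege

open Finset

variable {b M q : ℕ}

theorem av_sqrt_le {Ω : Type} [Fintype Ω] (f : Ω → ℝ) (hf : ∀ x, 0 ≤ f x) (B : ℝ) (hB : 0 ≤ B) (h : av f ≤ B ^ 2) :
    av (fun x => Real.sqrt (f x)) ≤ B := by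
  have h1 := av_sq_le (fun x => Real.sqrt (f x))
  have h2 : av (fun x => Real.sqrt (f x) ^ 2) = av f := av_congr fun x => Real.sq_sqrt (hf x)
  rw [h2] at h1
  have h3 := abs_le_of_sq_le_sq (h1.trans h) hB
  exact (le_abs_self _).trans h3

/-- The form of the random matrix is the sum of the forms of the layers. -/
theorem form_HH (o : Om b M q) (x : Fin M → ℂ) :
    (ip x ((HH o).mulVec x)).re = ∑ i, (Real.sqrt b)⁻¹ * (ip x ((lay (o i)).mulVec x)).re := by
  have h1 : ip x ((HH o).mulVec x) = ∑ i, (((Real.sqrt b)⁻¹ : ℝ) : ℂ) * ip x ((lay (o i)).mulVec x) := by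
    simp only [ip_mulVec_eq]
    unfold HH
    simp only [mul_sum]
    rw [sum_comm]
    refine sum_congr rfl fun i _ => sum_congr rfl fun p _ => ?_
    push_cast
    ring
  rw [h1, Complex.re_sum]
  refine sum_congr rfl fun i _ => ?_
  rw [Complex.re_ofReal_mul]

theorem inv_sqrt_sq (hb : 1 ≤ b) : (Real.sqrt b)⁻¹ ^ 2 * b = 1 := by
  have h1 : (0 : ℝ) < b := by exact_mod_cast hb
  rw [inv_pow, Real.sq_sqrt h1.le, inv_mul_cancel₀ h1.ne']

theorem av_fro_HH [NeZero q] (hb : 1 ≤ b) : av (fun o : Om b M q => fro (HH o)) ≤ (M : ℝ) ^ 2 := by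
  unfold fro
  rw [av_sum]
  have h1 : ∀ u v : Fin M, av (fun o : Om b M q => ‖HH o u v‖ ^ 2) ≤ 1 := by
    intro u v
    have h2 : ∀ o : Om b M q, ‖HH o u v‖ ^ 2 = (Real.sqrt b)⁻¹ ^ 2 * ‖∑ i, lay (o i) u v‖ ^ 2 := by
      intro o
      unfold HH
      rw [norm_mul, mul_pow, norm_inv, Complex.norm_real, Real.norm_eq_abs, abs_of_nonneg (Real.sqrt_nonneg _)]
    rw [av_congr h2, av_mul]
    have h3 := av_sum_sq (I := Fin b) (fun ζ : Fin M → Fin M → ZMod (2 * q) => lay ζ u v) (lay_mean u v)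
      (fun ζ => (lay_norm ζ u v).le)
    rw [Fintype.card_fin] at h3
    calc _ ≤ (Real.sqrt b)⁻¹ ^ 2 * b := mul_le_mul_of_nonneg_left h3 (sq_nonneg _)
      _ = 1 := inv_sqrt_sq hb
  calc ∑ u : Fin M, av (fun o : Om b M q => ∑ v, ‖HH o u v‖ ^ 2) ≤ ∑ _u : Fin M, ∑ _v : Fin M, (1 : ℝ) := by
        refine sum_le_sum fun u _ => ?_
        rw [av_sum]
        exact sum_le_sum fun v _ => h1 u v
    _ = (M : ℝ) ^ 2 := by
        simp
        ring

theorem av_fro_sqrt [NeZero q] (hb : 1 ≤ b) : av (fun o : Om b M q => Real.sqrt (fro (HH o))) ≤ M :=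
  av_sqrt_le _ (fun o => fro_nonneg _) M (Nat.cast_nonneg M) (av_fro_HH hb)

/-- The normalised sum of the vectors of roots of unity. -/
noncomputable def gsum [NeZero q] (o : Fin b → Fin M → ZMod (2 * q)) : Fin M → ℂ :=
  fun u => (((Real.sqrt b)⁻¹ : ℝ) : ℂ) * ∑ i, rou (o i) u

theorem av_gsum [NeZero q] (hq : 2 ≤ q) (hb : 1 ≤ b) :
    av (fun o : Fin b → Fin M → ZMod (2 * q) => Real.sqrt (nsq (gsum o))) ≤ Real.sqrt M := by
  refine av_sqrt_le _ (fun o => nsq_nonneg _) _ (Real.sqrt_nonneg _) ?_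
  rw [Real.sq_sqrt (Nat.cast_nonneg M)]
  unfold nsq
  rw [av_sum]
  calc ∑ u : Fin M, av (fun o : Fin b → Fin M → ZMod (2 * q) => ‖gsum o u‖ ^ 2) ≤ ∑ _u : Fin M, (1 : ℝ) := by
        refine sum_le_sum fun u _ => ?_
        have h2 : ∀ o : Fin b → Fin M → ZMod (2 * q), ‖gsum o u‖ ^ 2 = (Real.sqrt b)⁻¹ ^ 2 * ‖∑ i, rou (o i) u‖ ^ 2 := by
          intro o
          unfold gsum
          rw [norm_mul, mul_pow, Complex.norm_real, Real.norm_eq_abs, sq_abs]
        rw [av_congr h2, av_mul]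
        have h3 := av_sum_sq (I := Fin b) (fun g : Fin M → ZMod (2 * q) => rou g u) (rou_mean hq u)
          (fun g => (om_norm _).le)
        rw [Fintype.card_fin] at h3
        calc _ ≤ (Real.sqrt b)⁻¹ ^ 2 * b := mul_le_mul_of_nonneg_left h3 (sq_nonneg _)
          _ = 1 := inv_sqrt_sq hb
    _ = M := by simp

theorem ip_gsum [NeZero q] (o : Fin b → Fin M → ZMod (2 * q)) (x : Fin M → ℂ) :
    (ip x (gsum o)).re = ∑ i, (Real.sqrt b)⁻¹ * (ip x (rou (o i))).re := by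
  have h1 : ip x (gsum o) = ∑ i, (((Real.sqrt b)⁻¹ : ℝ) : ℂ) * ip x (rou (o i)) := by
    unfold ip gsum
    simp only [mul_sum]
    rw [sum_comm]
    refine sum_congr rfl fun i _ => sum_congr rfl fun p _ => ?_
    ring
  rw [h1, Complex.re_sum]
  refine sum_congr rfl fun i _ => ?_
  rw [Complex.re_ofReal_mul]

theorem fro_lay [NeZero q] (ζ : Fin M → Fin M → ZMod (2 * q)) : Real.sqrt (fro (lay ζ)) = M := by
  have h1 : fro (lay ζ) = (M : ℝ) ^ 2 := by
    unfold fro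
    simp only [lay_norm]
    simp
    ring
  rw [h1, Real.sqrt_sq (Nat.cast_nonneg M)]

/-- The comparison for a given net, inverse temperature and number of layers. -/
theorem c1_core [NeZero q] (hM : 1 ≤ M) (hq : 2 ≤ q) (hb : 1 ≤ b) {ε : ℝ} (hε : 0 ≤ ε)
    (S : Finset (Fin M → ℂ)) (hS : ∀ y ∈ S, nsq y = 1) (hN : ∀ x, nsq x = 1 → ∃ y ∈ S, nsq (x - y) ≤ ε ^ 2)
    {β : ℝ} (hβ : 0 < β) (ht : 2 * M * β * (Real.sqrt b)⁻¹ ≤ 1 / 8) :
    av (fun o : Om b M q => lam (HH o) 0) ≤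
      2 * Real.sqrt M + Real.log S.card / β + 2 * ε * M + 320 * M ^ 3 * β ^ 2 * (Real.sqrt b)⁻¹ := by
  have hMr : (1 : ℝ) ≤ M := by exact_mod_cast hM
  have hbr : (0 : ℝ) < b := by exact_mod_cast hb
  set s := (Real.sqrt b)⁻¹ with hs
  have hs0 : 0 < s := inv_pos.2 (Real.sqrt_pos.2 hbr)
  have hsb : s ^ 2 * b = 1 := inv_sqrt_sq hb
  obtain ⟨x0, hx0⟩ : ∃ x : Fin M → ℂ, nsq x = 1 := by
    refine ⟨Pi.single ⟨0, hM⟩ 1, ?_⟩
    unfold nsq
    rw [sum_eq_single (⟨0, hM⟩ : Fin M)]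
    · simp
    · intro v _ hv
      rw [Pi.single_eq_of_ne hv]
      simp
    · intro h
      exact absurd (mem_univ _) h
  obtain ⟨y0, hy0, _⟩ := hN x0 hx0
  have hne : Nonempty S := ⟨⟨y0, hy0⟩⟩
  have hA : Nonempty (Fin M → Fin M → ZMod (2 * q)) := ⟨fun _ _ => 0⟩
  have hB : Nonempty (Fin M → ZMod (2 * q)) := ⟨fun _ => 0⟩
  set c := β * s with hc
  have hc0 : 0 < c := mul_pos hβ hs0
  set t := 2 * M * β * s with htdef
  have ht0 : 0 ≤ t := by positivity
  let V : (Fin M → Fin M → ZMod (2 * q)) → S → ℝ := fun ζ x => c * (ip x.1 ((lay ζ).mulVec x.1)).re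
  let V' : (Fin M → ZMod (2 * q)) → S → ℝ := fun g x => c * (2 * (ip x.1 (rou g)).re)
  have hV : ∀ ζ (x : S), |V ζ x| ≤ t := by
    intro ζ x
    have h1 := ip_mulVec_norm_le (lay ζ) x.1 x.1
    rw [fro_lay, hS x.1 x.2, Real.sqrt_one] at h1
    have h2 := (Complex.abs_re_le_norm (ip x.1 ((lay ζ).mulVec x.1))).trans h1
    change |c * (ip x.1 ((lay ζ).mulVec x.1)).re| ≤ t
    rw [abs_mul, abs_of_pos hc0]
    calc c * |(ip x.1 ((lay ζ).mulVec x.1)).re| ≤ c * (M * (1 * 1)) := mul_le_mul_of_nonneg_left h2 hc0.le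
      _ ≤ t := by
          rw [htdef, hc]
          nlinarith [mul_pos hβ hs0, mul_nonneg (mul_pos hβ hs0).le (zero_le_one.trans hMr)]
  have hV' : ∀ g (x : S), |V' g x| ≤ t := by
    intro g x
    have h1 := ip_norm_le x.1 (rou g)
    rw [nsq_rou, hS x.1 x.2, Real.sqrt_one, one_mul] at h1
    have h2 := (Complex.abs_re_le_norm (ip x.1 (rou g))).trans h1
    have h3 : Real.sqrt M ≤ M := by
      rw [Real.sqrt_le_left (by positivity)]
      nlinarith
    change |c * (2 * (ip x.1 (rou g)).re)| ≤ t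
    rw [abs_mul, abs_of_pos hc0, abs_mul, abs_of_pos (by norm_num : (0 : ℝ) < 2)]
    calc c * (2 * |(ip x.1 (rou g)).re|) ≤ c * (2 * M) := by
          refine mul_le_mul_of_nonneg_left ?_ hc0.le
          linarith
      _ = t := by
          rw [htdef, hc]
          ring
  have h0 : ∀ x : S, av (fun ζ => V ζ x) = 0 := by
    intro x
    change av (fun ζ : Fin M → Fin M → ZMod (2 * q) => c * (ip x.1 ((lay ζ).mulVec x.1)).re) = 0
    rw [av_mul, av_lay_form, mul_zero]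
  have h0' : ∀ x : S, av (fun g => V' g x) = 0 := by
    intro x
    change av (fun g : Fin M → ZMod (2 * q) => c * (2 * (ip x.1 (rou g)).re)) = 0
    rw [av_mul, av_mul, av_rou_mean hq, mul_zero, mul_zero]
  have hD : ∀ x y : S, av (fun ζ => (V ζ x - V ζ y) ^ 2) ≤ av (fun g => (V' g x - V' g y) ^ 2) := fun x y =>
    incr_le hq c x.1 y.1 (hS x.1 x.2) (hS y.1 y.2)
  have hsf := sf_all V V' t ht hV hV' h0 h0' hD b (fun _ => 0)
  simp only [zero_add] at hsf
  -- lower side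
  have hlow : ∀ o : Om b M q, lam (HH o) 0 ≤ (1 / β) * lse (fun x : S => ∑ i, V (o i) x) + (2 * ε) * Real.sqrt (fro (HH o)) := by
    intro o
    obtain ⟨y, hy, hle⟩ := lam_le_net hM (HH_herm o) hε hS hN
    have h1 := le_lse (fun x : S => ∑ i, V (o i) x) ⟨y, hy⟩
    have h2 : ∑ i, V (o i) ⟨y, hy⟩ = β * (ip y ((HH o).mulVec y)).re := by
      rw [form_HH, mul_sum]
      refine sum_congr rfl fun i _ => ?_
      change c * (ip y ((lay (o i)).mulVec y)).re = _
      rw [hc]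
      ring
    simp only [h2] at h1
    have h3 : (ip y ((HH o).mulVec y)).re ≤ (1 / β) * lse (fun x : S => ∑ i, V (o i) x) := by
      rw [one_div, ← div_eq_inv_mul, le_div_iff₀ hβ, mul_comm]
      exact h1
    linarith
  -- upper side
  have hup : ∀ o : Fin b → Fin M → ZMod (2 * q), lse (fun x : S => ∑ i, V' (o i) x) ≤
      Real.log S.card + (2 * β) * Real.sqrt (nsq (gsum o)) := by
    intro o
    have h1 := lse_le (fun x : S => ∑ i, V' (o i) x) ((2 * β) * Real.sqrt (nsq (gsum o))) (by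
      intro x
      have h2 : ∑ i, V' (o i) x = (2 * β) * (ip x.1 (gsum o)).re := by
        rw [ip_gsum, mul_sum]
        refine sum_congr rfl fun i _ => ?_
        change c * (2 * (ip x.1 (rou (o i))).re) = _
        rw [hc]
        ring
      rw [h2]
      refine mul_le_mul_of_nonneg_left ?_ (by positivity)
      have h3 := (Complex.re_le_norm _).trans (ip_norm_le x.1 (gsum o))
      rwa [hS x.1 x.2, Real.sqrt_one, one_mul] at h3)
    rwa [Fintype.card_coe] at h1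
  have hOm : Nonempty (Om b M q) := ⟨fun _ _ _ => 0⟩
  have hOm' : Nonempty (Fin b → Fin M → ZMod (2 * q)) := ⟨fun _ _ => 0⟩
  have e1 : av (fun o : Om b M q => lam (HH o) 0) ≤
      (1 / β) * av (fun o : Om b M q => lse (fun x : S => ∑ i, V (o i) x)) + (2 * ε) * M := by
    refine (av_mono hlow).trans ?_
    rw [av_add, av_mul, av_mul]
    have := mul_le_mul_of_nonneg_left (av_fro_sqrt (M := M) (q := q) hb) (by positivity : 0 ≤ 2 * ε)
    linarith
  have e2 : av (fun o : Fin b → Fin M → ZMod (2 * q) => lse (fun x : S => ∑ i, V' (o i) x)) ≤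
      Real.log S.card + (2 * β) * Real.sqrt M := by
    refine (av_mono hup).trans ?_
    rw [av_add, av_const, av_mul]
    have := mul_le_mul_of_nonneg_left (av_gsum (M := M) (b := b) hq hb) (by positivity : 0 ≤ 2 * β)
    linarith
  have e3 : (1 / β) * av (fun o : Om b M q => lse (fun x : S => ∑ i, V (o i) x)) ≤
      (1 / β) * (Real.log S.card + (2 * β) * Real.sqrt M + b * (40 * t ^ 3)) := by
    refine mul_le_mul_of_nonneg_left ?_ (by positivity)
    exact hsf.trans (by linarith)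
  have e4 : (1 / β) * (Real.log S.card + (2 * β) * Real.sqrt M + b * (40 * t ^ 3)) =
      2 * Real.sqrt M + Real.log S.card / β + 320 * M ^ 3 * β ^ 2 * s * (s ^ 2 * b) := by
    rw [htdef]
    field_simp
    ring
  rw [hsb, mul_one] at e4
  linarith

/-- Output of C1. -/
theorem outC1 : OutC1 := by
  intro M q hM hq η hη
  have hMr : (1 : ℝ) ≤ M := by exact_mod_cast hM
  have hM0 : (0 : ℝ) < M := by linarith
  obtain ⟨S, hS, hN⟩ := exists_net M (η / (6 * M)) (by positivity)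
  set Lg := Real.log S.card with hLg
  have hL0 : 0 ≤ Lg := Real.log_natCast_nonneg _
  obtain ⟨β, hβd⟩ : ∃ β : ℝ, β = 3 * Lg / η + 1 := ⟨_, rfl⟩
  have hβ : 0 < β := by
    rw [hβd]
    positivity
  have hβ1 : Lg / β ≤ η / 3 := by
    rw [div_le_iff₀ hβ, hβd]
    field_simp
    nlinarith
  obtain ⟨K, hK⟩ : ∃ K : ℝ, K = 16 * M * β + 960 * M ^ 3 * β ^ 2 / η := ⟨_, rfl⟩
  have hK0 : 0 < K := by
    rw [hK]
    positivity
  refine ⟨⌈K ^ 2⌉₊ + 1, fun b hb => ?_⟩
  intro _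
  have hb1 : 1 ≤ b := by omega
  have hbr : (0 : ℝ) < b := by exact_mod_cast hb1
  have hKb : K ≤ Real.sqrt b := by
    rw [← Real.sqrt_sq hK0.le]
    refine Real.sqrt_le_sqrt ((Nat.le_ceil _).trans ?_)
    exact_mod_cast (by omega : ⌈K ^ 2⌉₊ ≤ b)
  have hsb : 0 < Real.sqrt b := Real.sqrt_pos.2 hbr
  have hKs : K * (Real.sqrt b)⁻¹ ≤ 1 := by
    rw [← div_eq_mul_inv, div_le_one hsb]
    exact hKb
  have hs0 : 0 < (Real.sqrt b)⁻¹ := inv_pos.2 hsb
  have h1 : 16 * M * β * (Real.sqrt b)⁻¹ ≤ 1 := by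
    refine le_trans (mul_le_mul_of_nonneg_right ?_ hs0.le) hKs
    rw [hK]
    have : 0 ≤ 960 * (M : ℝ) ^ 3 * β ^ 2 / η := by positivity
    linarith
  have h2 : 960 * M ^ 3 * β ^ 2 / η * (Real.sqrt b)⁻¹ ≤ 1 := by
    refine le_trans (mul_le_mul_of_nonneg_right ?_ hs0.le) hKs
    rw [hK]
    have : 0 ≤ 16 * (M : ℝ) * β := by positivity
    linarith
  have h3 : 320 * M ^ 3 * β ^ 2 * (Real.sqrt b)⁻¹ ≤ η / 3 := by
    have e : 960 * M ^ 3 * β ^ 2 / η * (Real.sqrt b)⁻¹ = (320 * M ^ 3 * β ^ 2 * (Real.sqrt b)⁻¹) * (3 / η) := by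
      field_simp
      ring
    rw [e] at h2
    have h4 := mul_le_mul_of_nonneg_right h2 (by positivity : 0 ≤ η / 3)
    have e2 : 320 * M ^ 3 * β ^ 2 * (Real.sqrt b)⁻¹ * (3 / η) * (η / 3) = 320 * M ^ 3 * β ^ 2 * (Real.sqrt b)⁻¹ := by
      field_simp
    rw [e2, one_mul] at h4
    exact h4
  have h4 : 2 * (η / (6 * M)) * M = η / 3 := by
    field_simp
    ring
  have h5 := c1_core (b := b) (q := q) hM (by omega) hb1 (ε := η / (6 * M)) (by positivity) S hS hN hβ (by linarith)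
  linarith

end ACpFrege
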