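import Pool.Agent.H88.AF.LayQ

/-!
helper33 (project MP_28250c_AF): finite nets of the unit sphere, the Frobenius norm, comparison of the largest eigenvalue with
the maximum of the form over a net.
-/

set_option autoImplicit false
set_option linter.unusedSectionVars false
set_option linter.unusedVariables false

namespace ACpFrege

open Finset

theorem continuous_nsq (M : ℕ) : Continuous (nsq : (Fin M → ℂ) → ℝ) := by
  unfold nsq
  fun_prop

theorem sphere_compact (M : ℕ) : IsCompact {x : Fin M → ℂ | nsq x = 1} := by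
  refine Metric.isCompact_of_isClosed_isBounded (isClosed_eq (continuous_nsq M) continuous_const) ?_
  refine (Metric.isBounded_closedBall (x := (0 : Fin M → ℂ)) (r := 1)).subset fun x hx => ?_
  rw [Metric.mem_closedBall, dist_zero_right, pi_norm_le_iff_of_nonneg zero_le_one]
  intro u
  have h1 := norm_apply_sq_le x u
  have h2 : nsq x = 1 := hx
  rw [h2] at h1
  nlinarith [norm_nonneg (x u)]

/-- A finite net of the unit sphere. -/
theorem exists_net (M : ℕ) (ε : ℝ) (hε : 0 < ε) : ∃ S : Finset (Fin M → ℂ), (∀ y ∈ S, nsq y = 1) ∧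
    ∀ x, nsq x = 1 → ∃ y ∈ S, nsq (x - y) ≤ ε ^ 2 := by
  have he : 0 < ε / (M + 1) := by positivity
  obtain ⟨t, hts, htf, htc⟩ := (sphere_compact M).finite_cover_balls he
  refine ⟨htf.toFinset, fun y hy => hts (htf.mem_toFinset.1 hy), fun x hx => ?_⟩
  have h1 := htc (show x ∈ {x : Fin M → ℂ | nsq x = 1} from hx)
  rw [Set.mem_iUnion₂] at h1
  obtain ⟨y, hy, hxy⟩ := h1
  refine ⟨y, htf.mem_toFinset.2 hy, ?_⟩
  rw [Metric.mem_ball, dist_eq_norm] at hxy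
  have h2 : ∀ u, ‖(x - y) u‖ ≤ ε / (M + 1) := fun u => (norm_le_pi_norm (x - y) u).trans hxy.le
  calc nsq (x - y) ≤ ∑ _u : Fin M, (ε / (M + 1)) ^ 2 :=
        sum_le_sum fun u _ => pow_le_pow_left₀ (norm_nonneg _) (h2 u) 2
    _ = M * (ε / (M + 1)) ^ 2 := by simp
    _ ≤ ε ^ 2 := by
        rw [div_pow, mul_div_assoc', div_le_iff₀ (by positivity)]
        have hM : (0 : ℝ) ≤ M := Nat.cast_nonneg M
        nlinarith [mul_nonneg (sq_nonneg ε) hM, mul_nonneg (sq_nonneg ε) (mul_nonneg hM hM)]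

/-- The square of the Frobenius norm. -/
noncomputable def fro {M : ℕ} (H : Matrix (Fin M) (Fin M) ℂ) : ℝ := ∑ u, ∑ v, ‖H u v‖ ^ 2

theorem fro_nonneg {M : ℕ} (H : Matrix (Fin M) (Fin M) ℂ) : 0 ≤ fro H :=
  sum_nonneg fun _ _ => sum_nonneg fun _ _ => by positivity

theorem nsq_mulVec_le {M : ℕ} (H : Matrix (Fin M) (Fin M) ℂ) (z : Fin M → ℂ) : nsq (H.mulVec z) ≤ fro H * nsq z := by
  unfold fro
  rw [sum_mul]
  refine sum_le_sum fun u _ => ?_
  have h1 : ‖H.mulVec z u‖ ≤ ∑ v, ‖H u v‖ * ‖z v‖ := by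
    unfold Matrix.mulVec dotProduct
    refine (norm_sum_le _ _).trans (le_of_eq (sum_congr rfl fun v _ => norm_mul _ _))
  calc ‖H.mulVec z u‖ ^ 2 ≤ (∑ v, ‖H u v‖ * ‖z v‖) ^ 2 := pow_le_pow_left₀ (norm_nonneg _) h1 2
    _ ≤ (∑ v, ‖H u v‖ ^ 2) * ∑ v, ‖z v‖ ^ 2 := sum_mul_sq_le_sq_mul_sq _ _ _

/-- The form is bounded by the Frobenius norm. -/
theorem ip_mulVec_norm_le {M : ℕ} (H : Matrix (Fin M) (Fin M) ℂ) (x y : Fin M → ℂ) :
    ‖ip x (H.mulVec y)‖ ≤ Real.sqrt (fro H) * (Real.sqrt (nsq x) * Real.sqrt (nsq y)) := by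
  have h1 : ‖ip x (H.mulVec y)‖ ^ 2 ≤ (Real.sqrt (fro H) * (Real.sqrt (nsq x) * Real.sqrt (nsq y))) ^ 2 := by
    rw [mul_pow, mul_pow, Real.sq_sqrt (fro_nonneg H), Real.sq_sqrt (nsq_nonneg x), Real.sq_sqrt (nsq_nonneg y)]
    refine (ip_cs x (H.mulVec y)).trans ?_
    calc nsq x * nsq (H.mulVec y) ≤ nsq x * (fro H * nsq y) :=
          mul_le_mul_of_nonneg_left (nsq_mulVec_le H y) (nsq_nonneg x)
      _ = _ := by ring
  have h2 := abs_le_of_sq_le_sq h1 (by positivity)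
  rwa [abs_of_nonneg (norm_nonneg _)] at h2

theorem ip_mulVec_re_le {M : ℕ} (H : Matrix (Fin M) (Fin M) ℂ) (x y : Fin M → ℂ) :
    (ip x (H.mulVec y)).re ≤ Real.sqrt (fro H) * (Real.sqrt (nsq x) * Real.sqrt (nsq y)) :=
  (Complex.re_le_norm _).trans (ip_mulVec_norm_le H x y)

theorem ip_norm_le {ι : Type} [Fintype ι] (x y : ι → ℂ) : ‖ip x y‖ ≤ Real.sqrt (nsq x) * Real.sqrt (nsq y) := by
  have h1 : ‖ip x y‖ ^ 2 ≤ (Real.sqrt (nsq x) * Real.sqrt (nsq y)) ^ 2 := by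
    rw [mul_pow, Real.sq_sqrt (nsq_nonneg x), Real.sq_sqrt (nsq_nonneg y)]
    exact ip_cs x y
  have h2 := abs_le_of_sq_le_sq h1 (by positivity)
  rwa [abs_of_nonneg (norm_nonneg _)] at h2

/-- The largest eigenvalue is at most the maximum of the form over a net plus an error. -/
theorem lam_le_net {M : ℕ} (hM : 1 ≤ M) {H : Matrix (Fin M) (Fin M) ℂ} (hH : H.IsHermitian) {ε : ℝ} (hε : 0 ≤ ε)
    {S : Finset (Fin M → ℂ)} (hS : ∀ y ∈ S, nsq y = 1) (hN : ∀ x, nsq x = 1 → ∃ y ∈ S, nsq (x - y) ≤ ε ^ 2) :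
    ∃ y ∈ S, lam H 0 ≤ (ip y (H.mulVec y)).re + 2 * ε * Real.sqrt (fro H) := by
  have hc : 0 < Fintype.card (Fin M) := by
    rw [Fintype.card_fin]
    exact hM
  have hx1 := xi_nsq hH hc
  obtain ⟨y, hy, hxy⟩ := hN (xi H 0) hx1
  refine ⟨y, hy, ?_⟩
  have hy1 := hS y hy
  have h1 : lam H 0 = (ip (xi H 0) (H.mulVec (xi H 0))).re := by
    rw [xi_eig hH hc, ip_smul_right, ip_self, hx1, ← Complex.ofReal_mul, Complex.ofReal_re, mul_one]
  set x := xi H 0 with hx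
  have h2 : ip x (H.mulVec x) = ip y (H.mulVec y) + ip x (H.mulVec (x - y)) + ip (x - y) (H.mulVec y) := by
    rw [Matrix.mulVec_sub, ip_sub_right, ip_sub_left]
    ring
  have h3 : Real.sqrt (nsq (x - y)) ≤ ε := by
    rw [← Real.sqrt_sq hε]
    exact Real.sqrt_le_sqrt hxy
  have h4 := ip_mulVec_re_le H x (x - y)
  have h5 := ip_mulVec_re_le H (x - y) y
  rw [hx1, Real.sqrt_one, one_mul] at h4
  rw [hy1, Real.sqrt_one, mul_one] at h5
  have h6 : Real.sqrt (fro H) * Real.sqrt (nsq (x - y)) ≤ Real.sqrt (fro H) * ε :=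
    mul_le_mul_of_nonneg_left h3 (Real.sqrt_nonneg _)
  rw [h1, h2, Complex.add_re, Complex.add_re]
  linarith

end ACpFrege
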