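import Pool.Agent.H12.AF.Avg

/-!
helper33 (project MP_28250c_AF): the comparison lemma (replacement of layers) for the logarithm of a sum of exponentials.
-/

set_option autoImplicit false
set_option linter.unusedSectionVars false
set_option linter.unusedVariables false

namespace ACpFrege

open Finset

theorem exp_tay {x : ℝ} (hx : |x| ≤ 1) : |Real.exp x - (1 + x + x ^ 2 / 2)| ≤ |x| ^ 3 := by
  have h := Real.exp_bound hx (n := 3) (by norm_num)
  have e : (∑ m ∈ range 3, x ^ m / (m.factorial : ℝ)) = 1 + x + x ^ 2 / 2 := by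
    simp [sum_range_succ, Nat.factorial]
  rw [e] at h
  refine h.trans ?_
  have h1 : (0 : ℝ) ≤ |x| ^ 3 := by positivity
  have h2 : ((Nat.succ 3 : ℕ) : ℝ) / ((Nat.factorial 3 : ℕ) * ((3 : ℕ) : ℝ)) ≤ 1 := by
    norm_num [Nat.factorial]
  calc |x| ^ 3 * (((Nat.succ 3 : ℕ) : ℝ) / ((Nat.factorial 3 : ℕ) * ((3 : ℕ) : ℝ))) ≤ |x| ^ 3 * 1 :=
        mul_le_mul_of_nonneg_left h2 h1
    _ = |x| ^ 3 := mul_one _

theorem log_tay {u : ℝ} (hu : |u| ≤ 1 / 2) : |Real.log (1 + u) - (u - u ^ 2 / 2)| ≤ 2 * |u| ^ 3 := by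
  have hx : |(-u)| < 1 := by
    rw [abs_neg]
    linarith
  have h := Real.abs_log_sub_add_sum_range_le hx 2
  have e : (∑ i ∈ range 2, (-u) ^ (i + 1) / ((i : ℝ) + 1)) + Real.log (1 - (-u)) =
      Real.log (1 + u) - (u - u ^ 2 / 2) := by
    rw [sum_range_succ, sum_range_succ, sum_range_zero]
    rw [sub_neg_eq_add]
    push_cast
    ring
  rw [e, abs_neg] at h
  refine h.trans ?_
  have h1 : (0 : ℝ) ≤ |u| ^ 3 := by positivity
  rw [div_le_iff₀ (by linarith)]
  show |u| ^ 3 ≤ 2 * |u| ^ 3 * (1 - |u|)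
  nlinarith

section SF

variable {N : Type} [Fintype N]

/-- The logarithm of the sum of the exponentials. -/
noncomputable def lse (W : N → ℝ) : ℝ := Real.log (∑ x, Real.exp (W x))

theorem lse_pos [Nonempty N] (W : N → ℝ) : 0 < ∑ x, Real.exp (W x) :=
  sum_pos (fun x _ => Real.exp_pos _) univ_nonempty

theorem le_lse (W : N → ℝ) (x : N) : W x ≤ lse W := by
  have : Nonempty N := ⟨x⟩
  unfold lse
  rw [Real.le_log_iff_exp_le (lse_pos W)]
  exact single_le_sum (f := fun x => Real.exp (W x)) (fun y _ => (Real.exp_pos _).le) (mem_univ x)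

theorem lse_le [Nonempty N] (W : N → ℝ) (B : ℝ) (h : ∀ x, W x ≤ B) : lse W ≤ Real.log (Fintype.card N) + B := by
  have hc : (0 : ℝ) < Fintype.card N := by exact_mod_cast Fintype.card_pos
  have h1 : lse W ≤ Real.log (Fintype.card N * Real.exp B) := by
    unfold lse
    refine Real.log_le_log (lse_pos W) ?_
    calc ∑ x, Real.exp (W x) ≤ ∑ _x : N, Real.exp B := sum_le_sum fun x _ => Real.exp_le_exp.2 (h x)
      _ = Fintype.card N * Real.exp B := by rw [sum_const, card_univ, nsmul_eq_mul]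
  rw [Real.log_mul hc.ne' (Real.exp_pos _).ne', Real.log_exp] at h1
  exact h1

/-- The Gibbs weights. -/
noncomputable def gib (W : N → ℝ) (x : N) : ℝ := Real.exp (W x) / ∑ y, Real.exp (W y)

theorem gib_nonneg (W : N → ℝ) (x : N) : 0 ≤ gib W x :=
  div_nonneg (Real.exp_pos _).le (sum_nonneg fun y _ => (Real.exp_pos _).le)

theorem gib_sum [Nonempty N] (W : N → ℝ) : ∑ x, gib W x = 1 := by
  unfold gib
  rw [← sum_div, div_self (lse_pos W).ne']

theorem lse_add [Nonempty N] (W V : N → ℝ) :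
    lse (fun x => W x + V x) = lse W + Real.log (∑ x, gib W x * Real.exp (V x)) := by
  have h0 := lse_pos W
  have h1 : ∑ x, Real.exp (W x + V x) = (∑ x, Real.exp (W x)) * ∑ x, gib W x * Real.exp (V x) := by
    rw [mul_sum]
    refine sum_congr rfl fun x _ => ?_
    unfold gib
    rw [Real.exp_add]
    field_simp
  have h2 : 0 < ∑ x, gib W x * Real.exp (V x) := by
    have h3 : 0 < ∑ x, Real.exp (W x + V x) := lse_pos fun x => W x + V x
    rw [h1] at h3
    exact (mul_pos_iff_of_pos_left h0).1 h3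
  unfold lse
  rw [h1, Real.log_mul h0.ne' h2.ne']

/-- Second order expansion of the logarithm of an exponential mean. -/
theorem log_mean_tay (G V : N → ℝ) (hG : ∀ x, 0 ≤ G x) (hG1 : ∑ x, G x = 1) (t : ℝ) (ht : t ≤ 1 / 8)
    (hV : ∀ x, |V x| ≤ t) :
    |Real.log (∑ x, G x * Real.exp (V x)) -
      (∑ x, G x * V x + (∑ x, G x * V x ^ 2 - (∑ x, G x * V x) ^ 2) / 2)| ≤ 20 * t ^ 3 := by
  have hN : Nonempty N := by
    by_contra h
    rw [not_nonempty_iff] at h
    rw [univ_eq_empty, sum_empty] at hG1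
    exact zero_ne_one hG1
  have ht0 : 0 ≤ t := (abs_nonneg _).trans (hV (Classical.arbitrary N))
  set m1 := ∑ x, G x * V x with hm1
  set m2 := ∑ x, G x * V x ^ 2 with hm2
  set Z := ∑ x, G x * Real.exp (V x) with hZ
  have b1 : |m1| ≤ t := by
    calc |m1| ≤ ∑ x, |G x * V x| := abs_sum_le_sum_abs _ _
      _ ≤ ∑ x, G x * t := by
          refine sum_le_sum fun x _ => ?_
          rw [abs_mul, abs_of_nonneg (hG x)]
          exact mul_le_mul_of_nonneg_left (hV x) (hG x)
      _ = t := by rw [← sum_mul, hG1, one_mul]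
  have b2 : m2 ≤ t ^ 2 := by
    calc m2 ≤ ∑ x, G x * t ^ 2 := by
          refine sum_le_sum fun x _ => ?_
          refine mul_le_mul_of_nonneg_left ?_ (hG x)
          rw [← sq_abs]
          exact pow_le_pow_left₀ (abs_nonneg _) (hV x) 2
      _ = t ^ 2 := by rw [← sum_mul, hG1, one_mul]
  have b2' : 0 ≤ m2 := sum_nonneg fun x _ => mul_nonneg (hG x) (sq_nonneg _)
  have b3 : |Z - (1 + m1 + m2 / 2)| ≤ t ^ 3 := by
    have e : Z - (1 + m1 + m2 / 2) = ∑ x, G x * (Real.exp (V x) - (1 + V x + V x ^ 2 / 2)) := by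
      have e2 : ∀ x, G x * (Real.exp (V x) - (1 + V x + V x ^ 2 / 2)) =
          G x * Real.exp (V x) - (G x + G x * V x + G x * V x ^ 2 / 2) := fun x => by ring
      rw [sum_congr rfl fun x _ => e2 x, sum_sub_distrib, sum_add_distrib, sum_add_distrib, hG1, ← sum_div]
    rw [e]
    calc |∑ x, G x * (Real.exp (V x) - (1 + V x + V x ^ 2 / 2))|
        ≤ ∑ x, |G x * (Real.exp (V x) - (1 + V x + V x ^ 2 / 2))| := abs_sum_le_sum_abs _ _
      _ ≤ ∑ x, G x * t ^ 3 := by
          refine sum_le_sum fun x _ => ?_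
          rw [abs_mul, abs_of_nonneg (hG x)]
          refine mul_le_mul_of_nonneg_left ?_ (hG x)
          refine (exp_tay ((hV x).trans (by linarith))).trans ?_
          exact pow_le_pow_left₀ (abs_nonneg _) (hV x) 3
      _ = t ^ 3 := by rw [← sum_mul, hG1, one_mul]
  set r := Z - (1 + m1 + m2 / 2) with hr
  obtain ⟨u, hu⟩ : ∃ u, u = m1 + m2 / 2 + r := ⟨_, rfl⟩
  have hZu : Z = 1 + u := by
    rw [hu, hr]
    ring
  have t2 : t ^ 2 ≤ t / 8 := by nlinarith
  have t3 : t ^ 3 ≤ t / 64 := by nlinarith [mul_nonneg ht0 (sq_nonneg t)]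
  have t3' : t ^ 3 ≤ t ^ 2 / 8 := by nlinarith [sq_nonneg t]
  have hr1 := abs_le.1 b3
  have hm := abs_le.1 b1
  have hua : |u| ≤ 2 * t := by
    rw [abs_le, hu]
    constructor <;> nlinarith
  have h1 := log_tay (u := u) (hua.trans (by linarith))
  have h2 : 2 * |u| ^ 3 ≤ 16 * t ^ 3 := by
    have := pow_le_pow_left₀ (abs_nonneg u) hua 3
    nlinarith
  have h3 : |u ^ 2 - m1 ^ 2| ≤ 2 * t ^ 3 := by
    have e : u ^ 2 - m1 ^ 2 = (m2 / 2 + r) * (2 * m1 + (m2 / 2 + r)) := by
      rw [hu]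
      ring
    have a1 : |m2 / 2 + r| ≤ t ^ 2 * (5 / 8) := by
      rw [abs_le]
      constructor <;> nlinarith [sq_nonneg t]
    have a2 : |2 * m1 + (m2 / 2 + r)| ≤ t * 3 := by
      rw [abs_le]
      constructor <;> nlinarith [sq_nonneg t]
    rw [e, abs_mul]
    calc |m2 / 2 + r| * |2 * m1 + (m2 / 2 + r)| ≤ (t ^ 2 * (5 / 8)) * (t * 3) := by
          apply mul_le_mul a1 a2 (abs_nonneg _)
          positivity
      _ = (15 / 8) * t ^ 3 := by ring
      _ ≤ 2 * t ^ 3 := by
          have : 0 ≤ t ^ 3 := by positivity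
          linarith
  rw [hZu]
  have h1' := abs_le.1 (h1.trans h2)
  have h3' := abs_le.1 h3
  have e1 : u - u ^ 2 / 2 = m1 + (m2 - m1 ^ 2) / 2 + r - (u ^ 2 - m1 ^ 2) / 2 := by
    rw [hu]
    ring
  have t30 : 0 ≤ t ^ 3 := by positivity
  rw [abs_le]
  constructor
  · linarith [h1'.1, h3'.2, hr1.1]
  · linarith [h1'.2, h3'.1, hr1.2]

/-- The variance with respect to the weights `G` as a double sum. -/
theorem var_double (G V : N → ℝ) (hG1 : ∑ x, G x = 1) :
    ∑ x, G x * V x ^ 2 - (∑ x, G x * V x) ^ 2 = (∑ x, ∑ y, G x * G y * (V x - V y) ^ 2) / 2 := by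
  have h1 : ∑ x, ∑ y, G x * G y * (V x - V y) ^ 2 =
      ∑ x, ∑ y, ((G x * V x ^ 2) * G y + G x * (G y * V y ^ 2) - 2 * ((G x * V x) * (G y * V y))) := by
    refine sum_congr rfl fun x _ => sum_congr rfl fun y _ => ?_
    ring
  rw [h1]
  simp only [sum_sub_distrib, sum_add_distrib, ← mul_sum, ← sum_mul, hG1]
  ring

variable {A B : Type} [Fintype A] [Fintype B] [Nonempty A] [Nonempty B]

theorem av_log_mean (G : N → ℝ) (V : A → N → ℝ) (hG : ∀ x, 0 ≤ G x) (hG1 : ∑ x, G x = 1) (t : ℝ) (ht : t ≤ 1 / 8)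
    (hV : ∀ a x, |V a x| ≤ t) (h0 : ∀ x, av (fun a => V a x) = 0) :
    |av (fun a => Real.log (∑ x, G x * Real.exp (V a x))) -
      (∑ x, ∑ y, G x * G y * av (fun a => (V a x - V a y) ^ 2)) / 4| ≤ 20 * t ^ 3 := by
  have h1 : (∑ x, ∑ y, G x * G y * av (fun a => (V a x - V a y) ^ 2)) / 4 =
      av (fun a => ∑ x, G x * V a x + (∑ x, G x * V a x ^ 2 - (∑ x, G x * V a x) ^ 2) / 2) := by
    have e1 : ∀ a, ∑ x, G x * V a x + (∑ x, G x * V a x ^ 2 - (∑ x, G x * V a x) ^ 2) / 2 =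
        ∑ x, G x * V a x + (1 / 4) * ∑ x, ∑ y, G x * G y * (V a x - V a y) ^ 2 := by
      intro a
      rw [var_double G (V a) hG1]
      ring
    rw [av_congr e1, av_add, av_mul, av_sum, av_sum]
    have e2 : ∑ x, av (fun a => G x * V a x) = 0 := by
      refine sum_eq_zero fun x _ => ?_
      rw [av_mul, h0, mul_zero]
    rw [e2, zero_add, div_eq_mul_inv, mul_comm]
    norm_num
    refine sum_congr rfl fun x _ => ?_
    rw [av_sum]
    refine sum_congr rfl fun y _ => ?_
    rw [av_mul]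
  rw [h1, ← av_sub]
  refine (av_abs_le _).trans ?_
  calc av (fun a => |Real.log (∑ x, G x * Real.exp (V a x)) -
      (∑ x, G x * V a x + (∑ x, G x * V a x ^ 2 - (∑ x, G x * V a x) ^ 2) / 2)|)
      ≤ av (fun _ : A => 20 * t ^ 3) := av_mono fun a => log_mean_tay G (V a) hG hG1 t ht (hV a)
    _ = 20 * t ^ 3 := av_const _

/-- Replacement of one layer. -/
theorem sf_one [Nonempty N] (V : A → N → ℝ) (V' : B → N → ℝ) (t : ℝ) (ht : t ≤ 1 / 8)
    (hV : ∀ a x, |V a x| ≤ t) (hV' : ∀ a x, |V' a x| ≤ t)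
    (h0 : ∀ x, av (fun a => V a x) = 0) (h0' : ∀ x, av (fun a => V' a x) = 0)
    (hD : ∀ x y, av (fun a => (V a x - V a y) ^ 2) ≤ av (fun a => (V' a x - V' a y) ^ 2)) (R : N → ℝ) :
    av (fun a => lse (fun x => R x + V a x)) ≤ av (fun a => lse (fun x => R x + V' a x)) + 40 * t ^ 3 := by
  simp only [lse_add R]
  rw [av_add, av_add, av_const, av_const]
  have h1 := (abs_le.1 (av_log_mean (gib R) V (gib_nonneg R) (gib_sum R) t ht hV h0)).2
  have h2 := (abs_le.1 (av_log_mean (gib R) V' (gib_nonneg R) (gib_sum R) t ht hV' h0')).1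
  have h3 : ∑ x, ∑ y, gib R x * gib R y * av (fun a => (V a x - V a y) ^ 2) ≤
      ∑ x, ∑ y, gib R x * gib R y * av (fun a => (V' a x - V' a y) ^ 2) := by
    refine sum_le_sum fun x _ => sum_le_sum fun y _ => ?_
    exact mul_le_mul_of_nonneg_left (hD x y) (mul_nonneg (gib_nonneg R x) (gib_nonneg R y))
  linarith

/-- The average over functions on `Fin (n+1)`, first coordinate first. -/
theorem av_cons (n : ℕ) (f : (Fin (n + 1) → A) → ℝ) :
    av f = av (fun o : Fin n → A => av (fun a : A => f (Fin.cons a o))) := by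
  rw [av_swap (fun (o : Fin n → A) (a : A) => f (Fin.cons a o))]
  rw [← av_equiv (Fin.consEquiv fun _ : Fin (n + 1) => A) f, av_prod]
  rfl

/-- Replacement of all layers. -/
theorem sf_all [Nonempty N] (V : A → N → ℝ) (V' : B → N → ℝ) (t : ℝ) (ht : t ≤ 1 / 8)
    (hV : ∀ a x, |V a x| ≤ t) (hV' : ∀ a x, |V' a x| ≤ t)
    (h0 : ∀ x, av (fun a => V a x) = 0) (h0' : ∀ x, av (fun a => V' a x) = 0)
    (hD : ∀ x y, av (fun a => (V a x - V a y) ^ 2) ≤ av (fun a => (V' a x - V' a y) ^ 2)) (n : ℕ) :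
    ∀ R : N → ℝ, av (fun o : Fin n → A => lse (fun x => R x + ∑ i, V (o i) x)) ≤
      av (fun o : Fin n → B => lse (fun x => R x + ∑ i, V' (o i) x)) + n * (40 * t ^ 3) := by
  induction n with
  | zero =>
    intro R
    simp [av]
  | succ n ih =>
    intro R
    rw [av_cons, av_cons]
    simp only [Fin.sum_univ_succ, Fin.cons_zero, Fin.cons_succ]
    have h1 : av (fun o : Fin n → A => av (fun a : A => lse (fun x => R x + (V a x + ∑ i, V (o i) x)))) ≤
        av (fun a : A => av (fun o : Fin n → B => lse (fun x => R x + (V a x + ∑ i, V' (o i) x)))) +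
          n * (40 * t ^ 3) := by
      rw [av_swap (fun (o : Fin n → A) (a : A) => lse (fun x => R x + (V a x + ∑ i, V (o i) x)))]
      rw [← av_const (Ω := A) ((n : ℝ) * (40 * t ^ 3)), ← av_add]
      refine av_mono fun a => ?_
      have h2 := ih (fun x => R x + V a x)
      simp only [add_assoc] at h2
      exact h2
    have h3 : av (fun a : A => av (fun o : Fin n → B => lse (fun x => R x + (V a x + ∑ i, V' (o i) x)))) ≤
        av (fun o : Fin n → B => av (fun a : B => lse (fun x => R x + (V' a x + ∑ i, V' (o i) x)))) +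
          40 * t ^ 3 := by
      rw [av_swap (fun (a : A) (o : Fin n → B) => lse (fun x => R x + (V a x + ∑ i, V' (o i) x)))]
      rw [← av_const (Ω := Fin n → B) (40 * t ^ 3), ← av_add]
      refine av_mono fun o => ?_
      have h2 := sf_one V V' t ht hV hV' h0 h0' hD (fun x => R x + ∑ i, V' (o i) x)
      have e1 : ∀ (W : N → ℝ), (fun x => R x + ∑ i, V' (o i) x + W x) = fun x => R x + (W x + ∑ i, V' (o i) x) := by
        intro W
        funext x
        ring
      simp only [e1] at h2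
      exact h2
    push_cast
    linarith

end SF

end ACpFrege
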